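import Mathlib

set_option autoImplicit false

namespace Pool.Agent.Results.MP_1f55c7_lc.Differ

open Filter

/-- Formulas. -/
inductive Fm : Type
  | var : ℕ → Fm
  | bot : Fm
  | and : Fm → Fm → Fm
  | or : Fm → Fm → Fm
  | imp : Fm → Fm → Fm
  | box : Fm → Fm
  | dia : Fm → Fm

open Fm

/-- Uniform substitution. -/
def Fm.sub (s : ℕ → Fm) : Fm → Fm
  | .var n => s n
  | .bot => .bot
  | .and a b => .and (a.sub s) (b.sub s)
  | .or a b => .or (a.sub s) (b.sub s)
  | .imp a b => .imp (a.sub s) (b.sub s)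
  | .box a => .box (a.sub s)
  | .dia a => .dia (a.sub s)

/-- Diamond-free formulas. -/
def Fm.DiaFree : Fm → Prop
  | .var _ => True
  | .bot => True
  | .and a b => a.DiaFree ∧ b.DiaFree
  | .or a b => a.DiaFree ∧ b.DiaFree
  | .imp a b => a.DiaFree ∧ b.DiaFree
  | .box a => a.DiaFree
  | .dia _ => False

/-- Theorems of `CK_□ ⊕ A`. -/
inductive Thm (A : Set Fm) : Fm → Prop
  | k (a b) : Thm A (imp a (imp b a))
  | s (a b c) : Thm A (imp (imp a (imp b c)) (imp (imp a b) (imp a c)))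
  | andI (a b) : Thm A (imp a (imp b (and a b)))
  | andL (a b) : Thm A (imp (and a b) a)
  | andR (a b) : Thm A (imp (and a b) b)
  | orL (a b) : Thm A (imp a (or a b))
  | orR (a b) : Thm A (imp b (or a b))
  | orE (a b c) : Thm A (imp (imp a c) (imp (imp b c) (imp (or a b) c)))
  | efq (a) : Thm A (imp bot a)
  | kbox (a b) : Thm A (imp (box (imp a b)) (imp (box a) (box b)))
  | ax {a} : a ∈ A → Thm A a
  | mp {a b} : Thm A (imp a b) → Thm A a → Thm A b
  | nec {a} : Thm A a → Thm A (box a)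
  | us {a} (s : ℕ → Fm) : Thm A a → Thm A (a.sub s)

def Kdia : Fm := imp (box (imp (var 0) (var 1))) (imp (dia (var 0)) (dia (var 1)))
def Ndia : Fm := imp (dia bot) bot
def Cdia : Fm := imp (dia (or (var 0) (var 1))) (or (dia (var 0)) (dia (var 1)))
def wCD : Fm := imp (box (or (var 0) (var 1))) (imp (imp (dia (var 0)) (box (var 1))) (box (var 1)))

def L1 : Set Fm := {Kdia, Ndia, wCD}
def L2 : Set Fm := {Kdia, Ndia, wCD, Cdia}

/-- The diamond-free fragment of `CK_□ ⊕ L` is finitely axiomatisable. -/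
def FinAx (L : Set Fm) : Prop :=
  ∃ S : Set Fm, S.Finite ∧ (∀ χ ∈ S, χ.DiaFree) ∧ ∀ φ : Fm, φ.DiaFree → (Thm L φ ↔ Thm S φ)

abbrev neg (a : Fm) : Fm := imp a bot

section Der
variable {A : Set Fm}

theorem trans' {a b c : Fm} (h1 : Thm A (imp a b)) (h2 : Thm A (imp b c)) : Thm A (imp a c) :=
  .mp (.mp (.s _ _ _) (.mp (.k _ _) h2)) h1

theorem swap' {a b c : Fm} (h : Thm A (imp a (imp b c))) : Thm A (imp b (imp a c)) :=
  trans' (.k b a) (.mp (.s _ _ _) h)

theorem post {a b c d : Fm} (h : Thm A (imp a (imp b c))) (h2 : Thm A (imp c d)) :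
    Thm A (imp a (imp b d)) :=
  trans' h (.mp (.s _ _ _) (.mp (.k _ _) h2))

theorem suf (a b c : Fm) : Thm A (imp (imp a b) (imp (imp b c) (imp a c))) :=
  swap' (trans' (.k _ a) (.s a b c))

theorem orM {a b c d : Fm} (h1 : Thm A (imp a c)) (h2 : Thm A (imp b d)) :
    Thm A (imp (or a b) (or c d)) :=
  .mp (.mp (.orE _ _ _) (trans' h1 (.orL _ _))) (trans' h2 (.orR _ _))

theorem us2 {a : Fm} (h : a ∈ A) (p q : Fm) : Thm A (a.sub fun n => if n = 0 then p else q) :=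
  (Thm.ax h).us _

theorem dn (h1 : Kdia ∈ A) (h2 : Ndia ∈ A) (a : Fm) : Thm A (imp (dia a) (neg (box (neg a)))) :=
  swap' (post (us2 h1 a bot) (.ax h2))

theorem wcd (h : wCD ∈ A) {p q d : Fm} (hd : Thm A (imp (dia p) d)) :
    Thm A (imp (box (or p q)) (imp (imp d (box q)) (box q))) :=
  trans' (us2 h p q) (.mp (suf _ _ _) (.mp (suf _ _ _) hd))

theorem Thm.cut {B : Set Fm} (h : ∀ a ∈ A, Thm B a) {a : Fm} (ha : Thm A a) : Thm B a := by
  induction ha with
  | ax h1 => exact h _ h1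
  | mp _ _ h1 h2 => exact .mp h1 h2
  | nec _ h1 => exact .nec h1
  | us s _ h1 => exact .us s h1
  | _ => constructor

end Der

def tr : Fm → Fm
  | .var n => .var n
  | .bot => .bot
  | .and a b => .and (tr a) (tr b)
  | .or a b => .or (tr a) (tr b)
  | .imp a b => .imp (tr a) (tr b)
  | .box a => .box (tr a)
  | .dia a => neg (box (neg (tr a)))

theorem tr_sub (s : ℕ → Fm) (a : Fm) : tr (a.sub s) = (tr a).sub fun n => tr (s n) := by
  induction a <;> simp_all [tr, Fm.sub]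

theorem tr_eq {a : Fm} (h : a.DiaFree) : tr a = a := by
  induction a <;> simp_all [tr, Fm.DiaFree]

theorem tr_thm {a : Fm} (h : Thm L1 a) : Thm {tr wCD} (tr a) := by
  induction h with
  | ax h =>
    rcases h with rfl | rfl | rfl
    · exact trans' (.mp (.kbox _ _) (.nec (suf _ _ _))) (trans' (.kbox _ _) (suf _ _ _))
    · exact .mp (swap' (.mp (.mp (.s _ _ _) (.k _ (imp bot bot))) (.mp (.k _ _) (.efq _)))) (.nec (.efq _))
    · exact .ax rfl
  | mp _ _ h1 h2 => exact .mp h1 h2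
  | nec _ h1 => exact .nec h1
  | us s _ h1 => rw [tr_sub]; exact .us _ h1
  | _ => constructor

theorem finAx1 : FinAx L1 := by
  refine ⟨{tr wCD}, Set.finite_singleton _, ?_, fun φ hφ => ⟨fun h => tr_eq hφ ▸ tr_thm h, Thm.cut ?_⟩⟩
  · rintro _ rfl
    simp [tr, wCD, Fm.DiaFree]
  · rintro _ rfl
    exact wcd (by simp [L1]) (dn (by simp [L1]) (by simp [L1]) _)

structure Frame (W : Type) where
  le : W → W → Prop
  R : W → W → Prop
  D : W → W → Prop
  rf : ∀ x, le x x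
  tr : ∀ x y z, le x y → le y z → le x z

variable {W : Type}

def ev (F : Frame W) (V : ℕ → W → Prop) : Fm → W → Prop
  | .var n, w => ∀ u, F.le w u → V n u
  | .bot, _ => False
  | .and a b, w => ev F V a w ∧ ev F V b w
  | .or a b, w => ev F V a w ∨ ev F V b w
  | .imp a b, w => ∀ u, F.le w u → ev F V a u → ev F V b u
  | .box a, w => ∀ u, F.le w u → ∀ v, F.R u v → ev F V a v
  | .dia a, w => ∀ u, F.le w u → ∃ v, F.D u v ∧ ev F V a v

theorem mono (F : Frame W) (V : ℕ → W → Prop) (a : Fm) : ∀ w u, F.le w u → ev F V a w → ev F V a u := by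
  induction a with
  | bot => exact fun _ _ _ h => h
  | and a b ha hb => exact fun w u h h1 => ⟨ha _ _ h h1.1, hb _ _ h h1.2⟩
  | or a b ha hb => exact fun w u h h1 => h1.imp (ha _ _ h) (hb _ _ h)
  | _ => exact fun w u h h1 x hx => h1 x (F.tr _ _ _ h hx)

theorem ev_sub (F : Frame W) (V : ℕ → W → Prop) (s : ℕ → Fm) (a : Fm) :
    ∀ w, ev F V (a.sub s) w ↔ ev F (fun n => ev F V (s n)) a w := by
  induction a with
  | var n => exact fun w => ⟨fun h u hu => mono F V _ _ _ hu h, fun h => h w (F.rf w)⟩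
  | bot => exact fun _ => Iff.rfl
  | _ => intro w; simp only [Fm.sub, ev, *]

theorem sound (F : Frame W) {A : Set Fm} (hA : ∀ a ∈ A, ∀ V w, ev F V a w) {a : Fm} (h : Thm A a) :
    ∀ V w, ev F V a w := by
  induction h with
  | k a b => exact fun V w u _ h x hx _ => mono F V _ _ _ hx h
  | s a b c =>
    exact fun V w u _ h x hx h2 y hy h3 => h y (F.tr _ _ _ hx hy) h3 y (F.rf y) (h2 y hy h3)
  | andI a b => exact fun V w u _ h x hx h2 => ⟨mono F V _ _ _ hx h, h2⟩
  | andL a b => exact fun V w u _ h => h.1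
  | andR a b => exact fun V w u _ h => h.2
  | orL a b => exact fun V w u _ h => Or.inl h
  | orR a b => exact fun V w u _ h => Or.inr h
  | orE a b c =>
    exact fun V w u _ h x hx h2 y hy h3 => h3.elim (h y (F.tr _ _ _ hx hy)) (h2 y hy)
  | efq a => exact fun V w u _ h => h.elim
  | kbox a b =>
    exact fun V w u _ h x hx h2 y hy v hv => h y (F.tr _ _ _ hx hy) v hv v (F.rf v) (h2 y hy v hv)
  | ax h => exact hA _ h
  | mp _ _ h1 h2 => exact fun V w => h1 V w w (F.rf w) (h2 V w)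
  | nec _ h => exact fun V w u _ v _ => h V v
  | us s _ h => exact fun V w => (ev_sub F V s _ w).2 (h _ w)

theorem sound2 (F : Frame W) (h1 : ∀ u v, F.D u v → F.R u v)
    (h2 : ∀ w z u, F.D w z → F.le w u → ∃ z', F.D u z' ∧ F.le z z')
    (h3 : ∀ y z, F.R y z → ∃ t, F.le y t ∧ F.D t z) : ∀ a ∈ L2, ∀ V w, ev F V a w := by
  have key : ∀ V a w z, F.D w z → ev F V a z → ev F V (dia a) w := fun V a w z h hz u hu => by
    obtain ⟨z', k1, k2⟩ := h2 w z u h hu
    exact ⟨z', k1, mono F V _ _ _ k2 hz⟩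
  rintro _ (rfl | rfl | rfl | rfl) V w u _ h
  · intro x hx k y hy
    obtain ⟨v, hv, k2⟩ := k y hy
    exact ⟨v, hv, h y (F.tr _ _ _ hx hy) v (h1 _ _ hv) v (F.rf v) k2⟩
  · obtain ⟨v, -, k⟩ := h u (F.rf u)
    exact k
  · intro x hx k y hy z hz
    refine (h y (F.tr _ _ _ hx hy) z hz).elim (fun k2 => ?_) id
    obtain ⟨t, k3, k4⟩ := h3 y z hz
    exact k t (F.tr _ _ _ hy k3) (key V _ _ _ k4 k2) t (F.rf t) z (h1 _ _ k4)
  · obtain ⟨v, hv, k⟩ := h u (F.rf u)
    exact k.imp (key V _ _ _ hv) (key V _ _ _ hv)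

inductive Wd : Type
  | U : ℕ → Wd
  | X : ℕ → Wd
  | Y : ℕ → Wd
  | Z : ℕ → ℕ → Wd
  | M : ℕ → Wd

open Wd

def wle (k : ℕ) : Wd → Wd → Prop
  | U n, U m => n ≤ m
  | U n, X m => n ≤ m ∧ 0 < m
  | U n, Y m => n ≤ m
  | X n, X m => n = m
  | Y n, Y m => n = m
  | Z n c, Z m d => (n = m ∧ c = d) ∨ (n < m ∧ c < d ∧ d ≤ k)
  | Z n _, M m => n ≤ m
  | M n, M m => n = m
  | _, _ => False

def wR (k j : ℕ) : Wd → Wd → Prop
  | U n, Z m c => n = m ∧ c + j ≤ k ∧ (n = 0 → c = 0)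
  | X n, Z m c => n = m ∧ c ≤ k ∧ 0 < n
  | Y n, M m => n = m
  | _, _ => False

def FF (k : ℕ) : Frame Wd where
  le := wle k
  R := wR k 0
  D := wR k 0
  rf x := by cases x <;> simp [wle]
  tr x y z h1 h2 := by cases x <;> cases y <;> cases z <;> simp only [wle] at h1 h2 ⊢ <;> omega

def strat : Wd → Wd → Wd
  | U m, Z n c => if m = n then Z n c else Z m (c + 1)
  | X m, Z n c => if m = n then Z n c else Z m (c + 1)
  | Y m, _ => M m
  | _, z => z

theorem strat_ok (k j : ℕ) (w z u : Wd) (h1 : wR k (j + 1) w z) (h2 : wle k w u) :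
    wR k j u (strat u z) ∧ wle k z (strat u z) := by
  cases w <;> cases z <;> cases u <;> simp only [wR, wle, strat] at h1 h2 ⊢ <;>
    (try split_ifs) <;> (try simp only [wR, wle, true_and, and_true, true_or]) <;> omega

def up : Wd → Wd
  | U n => if n = 0 then U 0 else X n
  | w => w

theorem up_ok (k j : ℕ) (hj : j ≤ k) (y z : Wd) (h : wR k 0 y z) : wle k y (up y) ∧ wR k j (up y) z := by
  cases y <;> cases z <;> simp only [wR, wle, up] at h ⊢ <;>
    (try split_ifs) <;> (try simp only [wR, wle, true_and, and_true, true_or]) <;> omega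

theorem wR_anti (k j : ℕ) (w z : Wd) (h : wR k j w z) : wR k 0 w z := by
  cases w <;> cases z <;> simp only [wR] at h ⊢ <;> omega

noncomputable def UF : Ultrafilter ℕ := hyperfilter ℕ

theorem ge_UF (j : ℕ) : ∀ᶠ k in (UF : Filter ℕ), j ≤ k :=
  (eventually_ge_atTop j).filter_mono (Nat.hyperfilter_le_atTop)

def FU : Frame (ℕ → Wd) where
  le w u := ∀ᶠ k in (UF : Filter ℕ), wle k (w k) (u k)
  R w u := ∀ᶠ k in (UF : Filter ℕ), wR k 0 (w k) (u k)
  D w u := ∀ j, ∀ᶠ k in (UF : Filter ℕ), wR k j (w k) (u k)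
  rf x := Eventually.of_forall fun k => (FF k).rf _
  tr x y z h1 h2 := (h1.and h2).mono fun k h => (FF k).tr _ _ _ h.1 h.2

theorem sk {α : Type} [Nonempty α] (P : ℕ → α → Prop) :
    (∀ u : ℕ → α, ∀ᶠ k in (UF : Filter ℕ), P k (u k)) ↔ ∀ᶠ k in (UF : Filter ℕ), ∀ x, P k x := by
  refine ⟨fun h => ?_, fun h u => h.mono fun k hk => hk _⟩
  have : ∀ k, ∃ x, P k x → ∀ y, P k y := fun k => by
    by_cases hk : ∀ y, P k y
    · exact ⟨Classical.arbitrary α, fun _ => hk⟩
    · push Not at hk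
      obtain ⟨y, hy⟩ := hk
      exact ⟨y, fun h => absurd h hy⟩
  choose u hu using this
  exact (h u).mono hu

instance : Nonempty Wd := ⟨U 0⟩

theorem los (V : ℕ → ℕ → Wd → Prop) {a : Fm} (h : a.DiaFree) : ∀ w : ℕ → Wd,
    ev FU (fun n u => ∀ᶠ k in (UF : Filter ℕ), V k n (u k)) a w ↔
      ∀ᶠ k in (UF : Filter ℕ), ev (FF k) (V k) a (w k) := by
  induction a with
  | var n => intro w; simp only [ev, ← sk, Ultrafilter.eventually_imp]; rfl
  | bot => intro w; simp [ev, UF.neBot.ne]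
  | and a b ha hb => intro w; simp only [ev, ha h.1, hb h.2, eventually_and]
  | or a b ha hb => intro w; simp only [ev, ha h.1, hb h.2, Ultrafilter.eventually_or]
  | imp a b ha hb => intro w; simp only [ev, ha h.1, hb h.2, ← sk, Ultrafilter.eventually_imp]; rfl
  | box a ha =>
    intro w
    simp only [ev, ha h, ← sk, Ultrafilter.eventually_imp]
    rfl
  | dia a => exact h.elim

theorem almost {a : Fm} (h : a.DiaFree) (h2 : Thm L2 a) :
    ∀ᶠ k in (UF : Filter ℕ), ∀ V w, ev (FF k) V a w := by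
  have := (sk fun k (x : (ℕ → Wd → Prop) × Wd) => ev (FF k) x.1 a x.2).1 fun u =>
    (los (fun k => (u k).1) h fun k => (u k).2).1 (sound FU (sound2 FU (fun _ _ h => h 0)
      (fun w z u h1 h2 => ⟨fun k => strat (u k) (z k),
        fun j => ((h1 (j + 1)).and h2).mono fun k h => (strat_ok k j _ _ _ h.1 h.2).1,
        ((h1 1).and h2).mono fun k h => (strat_ok k 0 _ _ _ h.1 h.2).2⟩)
      fun y z h1 => ⟨fun k => up (y k), h1.mono fun k h => (up_ok k 0 k.zero_le _ _ h).1,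
        fun j => (h1.and (ge_UF j)).mono fun k h => (up_ok k j h.2 _ _ h.1).2⟩) h2 _ _)
  exact this.mono fun k hk V w => hk (V, w)

def vr (i n : ℕ) : Fm := var (Nat.pair i n)

def DD : ℕ → ℕ → Fm
  | 0, n => neg (box (neg (vr 0 n)))
  | j + 1, n => imp (box (imp (vr 0 n) (or (vr 0 (n + 1)) (or (vr 1 (n + 1)) (vr 2 (n + 1))))))
      (or (DD j (n + 1)) (or (neg (box (neg (vr 1 (n + 1))))) (neg (box (neg (vr 2 (n + 1)))))))

theorem DD_free (j : ℕ) : ∀ n, (DD j n).DiaFree := by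
  induction j <;> simp_all [DD, vr, Fm.DiaFree]

theorem DD_thm (j : ℕ) : ∀ n, Thm L2 (imp (dia (vr 0 n)) (DD j n)) := by
  have h := dn (A := L2) (by simp [L2]) (by simp [L2])
  have hC := us2 (A := L2) (a := Cdia) (by simp [L2])
  induction j with
  | zero => exact fun n => h _
  | succ j ih =>
    exact fun n => swap' (post (post (us2 (a := Kdia) (by simp [L2]) _ _) (hC _ _))
      (orM (ih _) (trans' (hC _ _) (orM (h _) (h _)))))

def VV (k : ℕ) (i n : ℕ) : Wd → Prop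
  | Z m c => if i = 0 then n ≤ c ∧ (n < m → n < c) else if i = 1 then n < m else
      i = 3 ∧ ¬ (m = 0 ∧ c = 0)
  | M m => if i = 0 then n ≤ k else if i = 1 then n < m else i = 3 ∨ m = n
  | _ => True

def V0 (k : ℕ) (m : ℕ) : Wd → Prop := VV k m.unpair.1 m.unpair.2

theorem ev_vr (k i n : ℕ) (w : Wd) : ev (FF k) (V0 k) (vr i n) w ↔ ∀ u, wle k w u → VV k i n u := by
  simp only [vr, ev, V0, Nat.unpair_pair]; rfl

theorem DD_fail (k j : ℕ) : ∀ n, n + j = k + 1 → ¬ ev (FF k) (V0 k) (DD j n) (U n) := by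
  have nb : ∀ i n w u, wle k w u → (∀ x, wle k u x → ∀ v, wR k 0 x v → ∀ t, wle k v t → ¬ VV k i n t) →
      ¬ ev (FF k) (V0 k) (neg (box (neg (vr i n)))) w := fun i n w u hu h h1 =>
    h1 u hu fun x hx v hv t ht h2 => h x hx v hv t ht ((ev_vr ..).1 h2 t ((FF k).rf t))
  induction j with
  | zero =>
    refine fun n hn => nb 0 n _ (U n) le_rfl fun x hx v hv t ht => ?_
    cases x <;> cases v <;> cases t <;> simp only [wle, wR, VV, if_true] at hx hv ht ⊢ <;> omega
  | succ j ih =>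
    intro n hn h
    refine (h (U (n + 1)) n.le_succ (fun x hx v hv t ht h1 => ?_)).elim (ih (n + 1) (by omega))
      fun h1 => h1.elim (fun h1 => ?_) fun h1 => ?_
    rotate_left
    · refine nb 1 _ _ (Y (n + 1)) le_rfl (fun x hx v hv t ht => ?_) h1
      cases x <;> cases v <;> cases t <;> simp [wle, wR, VV] at hx hv ht ⊢ <;> omega
    · refine nb 2 _ _ (U (n + 2)) (Nat.le_succ _) (fun x hx v hv t ht => ?_) h1
      cases x <;> cases v <;> cases t <;> simp [wle, wR, VV] at hx hv ht ⊢ <;> omega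
    · have h2 := (ev_vr ..).1 h1 t ((FF k).rf t)
      have h3 : (∃ m c, t = Z m c ∧ n + 1 ≤ m ∧ c ≤ k) ∨ ∃ m, t = M m ∧ n + 1 ≤ m := by
        change wle k _ _ at hx ht
        change wR k 0 _ _ at hv
        cases x <;> cases v <;> cases t <;> simp [wle, wR] at hx hv ht ⊢ <;> omega
      simp only [ev, ev_vr]
      rcases h3 with ⟨m, c, rfl, h3, h4⟩ | ⟨m, rfl, h3⟩ <;> rcases h3.eq_or_lt with rfl | h5
      · refine Or.inl fun u hu => ?_
        cases u <;> simp [wle, VV] at hu h2 ⊢ <;> omega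
      · refine Or.inr (Or.inl fun u hu => ?_)
        cases u <;> simp [wle, VV] at hu ⊢ <;> omega
      · refine Or.inr (Or.inr fun u hu => ?_)
        cases u <;> simp [wle, VV] at hu ⊢ <;> omega
      · refine Or.inr (Or.inl fun u hu => ?_)
        cases u <;> simp [wle, VV] at hu ⊢ <;> omega

theorem not_finAx2 : ¬ FinAx L2 := by
  rintro ⟨S, hS, h1, h2⟩
  obtain ⟨k, hk⟩ := ((eventually_all_finite hS).2 fun χ hχ =>
    almost (h1 χ hχ) ((h2 χ (h1 χ hχ)).2 (.ax hχ))).exists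
  have h3 := sound (FF k) hk ((h2 _ (by simp [vr, Fm.DiaFree, DD_free])).1
    (wcd (q := vr 3 0) (by simp [L2]) (DD_thm (k + 1) 0))) (V0 k) (U 0) (U 0) le_rfl
    (fun x hx v hv => ?_) (U 0) le_rfl (fun u hu h x hx v hv => ?_) (U 0) le_rfl (Z 0 0) (by simp [FF, wR])
  · simpa [VV] using (ev_vr ..).1 h3 (Z 0 0) (by simp [wle])
  · by_cases h : v = Z 0 0
    · refine Or.inl ((ev_vr ..).2 fun u hu => ?_)
      subst h
      cases u <;> simp [wle, VV] at hu ⊢ <;> omega
    · refine Or.inr ((ev_vr ..).2 fun u hu => ?_)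
      cases v <;> cases u <;> simp [wle, VV] at hu h ⊢ <;> omega
  · have h4 : u ≠ U 0 := fun e => DD_fail k (k + 1) 0 (by simp) (e ▸ h)
    refine (ev_vr ..).2 fun t ht => ?_
    change wle k _ _ at hx hu
    change wR k 0 _ _ at hv
    cases u <;> cases x <;> cases v <;> cases t <;> simp [wle, wR, VV] at hx hv ht h4 hu ⊢ <;> omega

theorem result : (∃ φ : Fm, φ.DiaFree ∧ Thm L2 φ ∧ ¬ Thm L1 φ) ∧ FinAx L1 ∧ ¬ FinAx L2 := by
  refine ⟨?_, finAx1, not_finAx2⟩
  by_contra h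
  push Not at h
  obtain ⟨S, h1, h2, h3⟩ := finAx1
  refine not_finAx2 ⟨S, h1, h2, fun φ hφ => Iff.trans ⟨h φ hφ, Thm.cut fun a ha => .ax ?_⟩ (h3 φ hφ)⟩
  simp only [L1, L2, Set.mem_insert_iff, Set.mem_singleton_iff] at ha ⊢
  tauto

end Pool.Agent.Results.MP_1f55c7_lc.Differ
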